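import Pool.Agent.Lib.MP_a65cb7_co.Transfer

open Pool.Agent.Lib.MP_a65cb7_co

namespace Pool.Agent.Results.MP_a65cb7_co.Disproof

/-- The negated form of Q1, for every constant `c`, with an injective realization in which every
line contains at most a quarter of the neighbours of any vertex, and in which not even a
subgraph with three vertices gives a rigid framework. -/
theorem result : ∀ (c : ℝ) (N : ℕ), ∃ n : ℕ, N ≤ n ∧
    ∃ (G : SimpleGraph (Fin n)) (p : Fin n → EuclideanSpace ℝ (Fin 2)),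
      c * (n : ℝ) ^ (7 / 6 : ℝ) ≤ (G.edgeSet.ncard : ℝ) ∧
      Function.Injective p ∧
      (∀ v, ¬ Collinear ℝ (p '' G.neighborSet v)) ∧
      (∀ v, ∀ S ⊆ G.neighborSet v, Collinear ℝ (p '' S) →
        4 * S.ncard ≤ (G.neighborSet v).ncard) ∧
      ∀ H : G.Subgraph, 3 ≤ H.verts.ncard → ¬ IsRigid H.coe (fun v : H.verts => p v) := by
  intro c N
  -- choose the scale
  obtain ⟨s0, hs0⟩ := exists_nat_ge (|c|)
  set s : ℕ := max s0 (N + 1) with hs
  have hs1 : 1 ≤ s := le_trans (by omega) (le_max_right s0 (N + 1))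
  have hsN : N ≤ s := le_trans (by omega) (le_max_right s0 (N + 1))
  have hsc : |c| ≤ s := hs0.trans (by exact_mod_cast le_max_left _ _)
  set m : ℕ := 32 * s ^ 6 with hm
  have hm32 : 32 ≤ m := by
    have : 1 ≤ s ^ 6 := Nat.one_le_pow _ _ hs1
    omega
  set n : ℕ := (2 * s) ^ 30 with hn
  have hcard : Fintype.card (Vtx 5 m) = n := by
    simp only [Fintype.card_fun, Fintype.card_sum, Fintype.card_fin, hm, hn]
    ring
  let e : Fin n ≃ Vtx 5 m := (finCongr hcard.symm).trans (Fintype.equivFin (Vtx 5 m)).symm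
  have hcol : ∀ v, ∀ S ⊆ ((prodGraph 5 m).comap e).neighborSet v, Collinear ℝ (place e '' S) →
        4 * S.ncard ≤ (((prodGraph 5 m).comap e).neighborSet v).ncard := by
    intro v S hS hc
    have h1 := comap_collinear_le e v S hS hc
    have h2 := comap_neighbor_ge e v
    omega
  refine ⟨n, ?_, (prodGraph 5 m).comap e, place e, ?_, place_injective e.injective, ?_, hcol, ?_⟩
  · calc N ≤ s := hsN
      _ ≤ 2 * s := by omega
      _ ≤ (2 * s) ^ 30 := Nat.le_self_pow (by norm_num) _
  · have h1 := edges_ge ((prodGraph 5 m).comap e) (comap_neighbor_ge e)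
    have h2 : (n : ℝ) * ((5 * m : ℕ) : ℝ) ≤ 2 * ((((prodGraph 5 m).comap e).edgeSet.ncard : ℕ) : ℝ) := by
      exact_mod_cast h1
    set y : ℝ := 2 * (s : ℝ) with hy
    have hy0 : 0 ≤ y := by positivity
    have hny : (n : ℝ) = y ^ 30 := by rw [hn, hy]; push_cast; ring
    have hmy : ((5 * m : ℕ) : ℝ) = (5 / 2) * y ^ 6 := by rw [hm, hy]; push_cast; ring
    have hpow : (n : ℝ) ^ (7 / 6 : ℝ) = y ^ 35 := by
      rw [hny, ← Real.rpow_natCast, ← Real.rpow_mul hy0, ← Real.rpow_natCast]
      norm_num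
    have hcy : c ≤ (5 / 4) * y := by
      have h3 := le_abs_self c
      have h4 : (0 : ℝ) ≤ s := Nat.cast_nonneg s
      rw [hy]; linarith
    rw [hpow]
    rw [hny, hmy] at h2
    have h5 : c * y ^ 35 ≤ (5 / 4) * y * y ^ 35 := mul_le_mul_of_nonneg_right hcy (by positivity)
    nlinarith [h5, h2]
  · intro v hc
    have h1 := hcol v _ subset_rfl hc
    have h2 := comap_neighbor_ge e v
    omega
  · intro H hH
    exact not_rigid e e.injective H hH

end Pool.Agent.Results.MP_a65cb7_co.Disproof
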