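import Pool.Agent.Lib.MP_a65cb7_co.UnitD

/-!
Unit distance frameworks with many edges and without a rigid part.

The realizations of the proof: the vertices are polynomials F of degree at most K with bounded integer coefficients;
at the time s the vertex F is at the point F(is) / prod_(k ≤ K) |is + k| of the complex plane; F and F' are adjacent if
F - F' or F' - F is one of the 2^K products of the factors y - k, y + k (one of the two for every k ≤ K). The modulus
of such a product at is does not depend on the choice, so that all edges keep the length 1 when s changes.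
-/

open Pool.Agent.Lib.MP_a65cb7_co

namespace Pool.Agent.Results.MP_a65cb7_co.UnitDistances

/-- For arbitrarily large n there is a unit distance framework on n vertices with at least
n exp (√(log n / log log n) / 2) edges, at most two neighbours of a vertex on a line, no collinear neighbourhood,
and no rigid subframework on at least three vertices. -/
theorem result : ∀ N : ℕ, ∃ n : ℕ, N ≤ n ∧
    ∃ (G : SimpleGraph (Fin n)) (p : Fin n → EuclideanSpace ℝ (Fin 2)),
      (n : ℝ) * Real.exp (√(Real.log n / Real.log (Real.log n)) / 2) ≤ (G.edgeSet.ncard : ℝ) ∧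
      Function.Injective p ∧
      (∀ u v, G.Adj u v → dist (p u) (p v) = 1) ∧
      (∀ v, ¬ Collinear ℝ (p '' G.neighborSet v)) ∧
      (∀ v, ∀ S ⊆ G.neighborSet v, Collinear ℝ (p '' S) → S.ncard ≤ 2) ∧
      ∀ H : G.Subgraph, 3 ≤ H.verts.ncard → ¬ IsRigid H.coe (fun v : H.verts => p v) := by
  intro N
  set K : ℕ := max (N + 2) 15 with hK
  have hK15 : 15 ≤ K := le_max_right _ _
  have hKN : N + 2 ≤ K := le_max_left _ _
  obtain ⟨n, h1, h2, G, p, hdeg, hp, hu, hr⟩ := UD.framework K (by omega)
  have hcol := UD.collinear_le G p hp hu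
  have hpow : K - 2 < 2 ^ (K - 2) := Nat.lt_two_pow_self
  refine ⟨n, by omega, G, p, ?_, hp, hu, ?_, hcol, hr⟩
  · refine (UD.growth K n hK15 h1 h2).trans ?_
    have h3 := edges_ge G hdeg
    have h4 : 2 ^ (K - 2) = 2 * 2 ^ (K - 3) := by
      rw [← pow_succ', show K - 3 + 1 = K - 2 by omega]
    have h5 : n * 2 ^ (K - 3) ≤ G.edgeSet.ncard := by
      rw [h4] at h3
      have : 2 * (n * 2 ^ (K - 3)) ≤ 2 * G.edgeSet.ncard := by
        calc 2 * (n * 2 ^ (K - 3)) = n * (2 * 2 ^ (K - 3)) := by ring
          _ ≤ _ := h3
      omega
    exact_mod_cast h5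
  · intro v hc
    have h3 := hcol v _ subset_rfl hc
    have h4 := hdeg v
    omega

end Pool.Agent.Results.MP_a65cb7_co.UnitDistances
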